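import Pool.Agent.K9h99.AC.Check
import Pool.Agent.K9h99.AC.Unit

/-!
# An upper bound for the autocorrelation constant `C_{1a}`

An explicit step function with 65536 steps on `[-1/4, 1/4]` gives
`C_{1a} ≤ 1.502726 < 1.50286285870`.
-/

set_option autoImplicit false

open MeasureTheory Set

namespace Pool.Agent.Results.MP_834949_an.UpperBound

/-- `(f * f)(t) = ∫ f(y) f(t - y) dy` -/
noncomputable def conv (f : ℝ → ℝ) (t : ℝ) : ℝ := ∫ y, f y * f (t - y)

/-- The inequality `sup_{|t| ≤ 1/2} (f * f)(t) ≥ C (∫_{[-1/4, 1/4]} f) ^ 2` holds for every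
nonnegative square-integrable `f : ℝ → ℝ`. -/
def IsAdmissible (C : ℝ) : Prop :=
  ∀ f : ℝ → ℝ, (∀ x, 0 ≤ f x) → MemLp f 2 volume →
    C * (∫ x in Icc (-(1 / 4) : ℝ) (1 / 4), f x) ^ 2 ≤
      ⨆ t : Icc (-(1 / 2) : ℝ) (1 / 2), conv f t

/-- the constant `C_{1a}`: the supremum of the admissible `C` -/
noncomputable def C1a : ℝ := sSup {C : ℝ | IsAdmissible C}

theorem conv_le {f : ℝ → ℝ} (hf : MemLp f 2 volume) (t : ℝ) :
    conv f t ≤ ∫ y, f y ^ 2 := by
  have h1 : Integrable (fun y => f y ^ 2) := hf.integrable_sq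
  have hm : MeasurePreserving (fun y : ℝ => t - y) volume volume :=
    Measure.measurePreserving_sub_left volume t
  have hft : MemLp (fun y => f (t - y)) 2 volume := hf.comp_measurePreserving hm
  have h2 : Integrable (fun y => f (t - y) ^ 2) := hft.integrable_sq
  have h3 : Integrable (fun y => f y * f (t - y)) := hf.integrable_mul hft
  have h4 : ∫ y, f (t - y) ^ 2 = ∫ y, f y ^ 2 :=
    integral_sub_left_eq_self (fun y => f y ^ 2) volume t
  have h5 : ∫ y, f y * f (t - y) ≤ ∫ y, (1 / 2) * (f y ^ 2 + f (t - y) ^ 2) := by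
    apply integral_mono h3 ((h1.add h2).const_mul _)
    intro y
    simp only [Pi.add_apply]
    nlinarith [sq_nonneg (f y - f (t - y))]
  rw [integral_const_mul, integral_add h1 h2, h4] at h5
  unfold conv
  linarith

/-- **Main theorem.** For nonnegative square-integrable `f` every integral `(f * f)(t)` exists and
the values are bounded. There is a nonnegative square-integrable `f`, zero outside `[-1/4, 1/4]` and
with integral `1`, such that `(f * f)(t) ≤ 1.502726` for every real `t`. The set of the admissible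
constants is nonempty and bounded above by `1.502726`, and its supremum `C_{1a}` satisfies
`C_{1a} ≤ 1.502726`. -/
theorem result :
    (∀ f : ℝ → ℝ, MemLp f 2 volume → (∀ t, Integrable (fun y => f y * f (t - y))) ∧
      BddAbove (range (conv f))) ∧
    (∃ f : ℝ → ℝ, (∀ x, 0 ≤ f x) ∧ MemLp f 2 volume ∧
      (∀ x, x ∉ Icc (-(1 / 4) : ℝ) (1 / 4) → f x = 0) ∧ ∫ x, f x = 1 ∧
      ∀ t, conv f t ≤ 1.502726) ∧
    IsAdmissible 0 ∧ (∀ C : ℝ, IsAdmissible C → C ≤ 1.502726) ∧ C1a ≤ 1.502726 := by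
  have h0 : IsAdmissible 0 := by
    intro f h0 _
    rw [zero_mul]
    exact Real.iSup_nonneg fun t => integral_nonneg fun y => mul_nonneg (h0 _) (h0 _)
  obtain ⟨g, hg0, hg, hm, hconv⟩ := Pool.Agent.K9h99.AC.exists_fun
  set M : ℝ := ((68375879256 : ℕ) : ℝ) / (2 * ((65536 : ℕ) : ℝ)) with hM
  have hMpos : 0 < M := by rw [hM]; norm_num
  obtain ⟨f, hf0, hf, hfs, hf1, hfc⟩ := Pool.Agent.K9h99.AC.normalised hg0 hg hMpos hm hconv
  have hfc' : ∀ t, conv f t ≤ 1.502726 := by
    intro t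
    refine (hfc t).trans ?_
    rw [hM]
    norm_num
  have h1 : ∀ C : ℝ, IsAdmissible C → C ≤ 1.502726 := by
    intro C hC
    have h := hC f hf0 hf
    have : Nonempty (Icc (-(1 / 2) : ℝ) (1 / 2)) := ⟨⟨0, by norm_num, by norm_num⟩⟩
    have h2 : (⨆ t : Icc (-(1 / 2) : ℝ) (1 / 2), conv f t) ≤ 1.502726 :=
      ciSup_le fun t => hfc' t
    have h3 : ∫ x in Icc (-(1 / 4) : ℝ) (1 / 4), f x = 1 := by
      rw [setIntegral_eq_integral_of_forall_compl_eq_zero hfs, hf1]
    rw [h3] at h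
    linarith
  refine ⟨fun f hf => ⟨fun t => Pool.Agent.K9h99.AC.conv_int hf t, ⟨∫ y, f y ^ 2, ?_⟩⟩,
    ⟨f, hf0, hf, hfs, hf1, hfc'⟩, h0, h1, csSup_le ⟨0, h0⟩ h1⟩
  rintro _ ⟨t, rfl⟩
  exact conv_le hf t

end Pool.Agent.Results.MP_834949_an.UpperBound
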